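import Pool.Agent.Lib.MP_688fd0_co.Switch

/-!
Groups of odd order: definitions.

`Q` is a finite group, the quotient by a cyclic normal subgroup `C`. A label `g : B.L` is an element of the connection
set; `B.q g` is its image in `Q` and `V.n g` its component in `C` (`R = ZMod m`, or `ZMod p`). All paths are given by
multiplication on the right; translations are on the left. The label `a` of the lines is central in `Q` (`Cen a`).
-/

set_option autoImplicit false

namespace Pool.Agent.Lib.MP_688fd0_co.OSF

universe u v w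

/-- Labels. -/
structure Lb (Q : Type u) [Group Q] where
  L : Type v
  q : L → Q
  inv : L → L
  q_inv : ∀ g, q (inv g) = (q g)⁻¹
  ne_one : ∀ g, q g ≠ 1

/-- The action and the components. -/
structure Vd {Q : Type u} [Group Q] (B : Lb.{u, v} Q) (R : Type w) [CommRing R] where
  chi : Q →* R
  n : B.L → R
  n_inv : ∀ g, n (B.inv g) = -(chi (B.q g)⁻¹ * n g)

section

variable {Q : Type u} [Group Q] (B : Lb.{u, v} Q)

/-- The end of the path with labels `l` starting at `x`. -/
def Lb.fin : Q → List B.L → Q
  | x, [] => x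
  | x, g :: l => Lb.fin (x * B.q g) l

/-- The vertices of a path. -/
def Lb.verts : Q → List B.L → List Q
  | x, [] => [x]
  | x, g :: l => x :: Lb.verts (x * B.q g) l

/-- The labels of the reversed path. -/
def Lb.rev (l : List B.L) : List B.L := (l.map B.inv).reverse

/-- A strand: a base path and an alternative path. -/
structure Strand where
  x : Q
  l : List B.L
  l' : List B.L

variable {B}

/-- Translation. -/
def Strand.tr (y : Q) (s : Strand B) : Strand B := ⟨y * s.x, s.l, s.l'⟩

/-- The vertices of the base path. -/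
def Strand.vb (s : Strand B) : List Q := B.verts s.x s.l

/-- The vertices of the alternative path. -/
def Strand.va (s : Strand B) : List Q := B.verts s.x s.l'

/-- A family of strands that can be exchanged: same ends, disjoint base paths, same vertices. -/
structure SOK (S : List (Strand B)) : Prop where
  ne : ∀ s ∈ S, s.l ≠ []
  fin : ∀ s ∈ S, B.fin s.x s.l = B.fin s.x s.l'
  nodup : (S.flatMap Strand.vb).Nodup
  perm : (S.flatMap Strand.va).Perm (S.flatMap Strand.vb)

/-- `q a` is central. -/
def Cen (a : B.L) : Prop := ∀ x : Q, x * B.q a = B.q a * x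

variable (B)

/-- A Hamiltonian cycle of `Q` with labels. -/
structure Tour where
  lab : Q → B.L
  trans : ∀ x y, ∃ k : ℕ, (fun z => z * B.q (lab z))^[k] x = y

variable {B}

/-- The tour follows the path with labels `l` starting at `x`. -/
def Tour.Fol (T : Tour B) : Q → List B.L → Prop
  | _, [] => True
  | x, g :: l => T.lab x = g ∧ Tour.Fol T (x * B.q g) l

/-- The tour passes through the path, forwards (`b = true`) or backwards (`b = false`). -/
def Tour.Pass (T : Tour B) (b : Bool) (x : Q) (l : List B.L) : Prop :=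
  if b then T.Fol x l else T.Fol (B.fin x l) (B.rev l)

section ring

variable {R : Type w} [CommRing R] (V : Vd B R)

/-- The volume of a path. -/
def Vd.vol : Q → List B.L → R
  | _, [] => 0
  | x, g :: l => V.chi x * V.n g + Vd.vol (x * B.q g) l

/-- The volume of a tour. -/
noncomputable def Vd.tvol [Fintype Q] (T : Tour B) : R := ∑ x, V.chi x * V.n (T.lab x)

/-- The change of volume, for strands with directions. -/
def Vd.dlt (l : List (Strand B × Bool)) : R :=
  (l.map fun p => (if p.2 then 1 else -1) * (V.vol p.1.x p.1.l' - V.vol p.1.x p.1.l)).sum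

/-- The commutator of two labels. -/
def Vd.kap (g h : B.L) : R := (V.chi (B.q g) - 1) * V.n h - (V.chi (B.q h) - 1) * V.n g

/-- Change of ring. -/
def Vd.map {R' : Type*} [CommRing R'] (f : R →+* R') : Vd B R' where
  chi := f.toMonoidHom.comp V.chi
  n := fun g => f (V.n g)
  n_inv := fun g => by
    rw [V.n_inv, map_neg, map_mul]; rfl

end ring

/-! ### Bands -/

/-- The four vertices of the band at `y` with rungs `s` (on the lines of `a`). -/
def bv (a : B.L) (b : Q × B.L) : List Q :=
  [b.1, b.1 * B.q a, b.1 * B.q b.2, b.1 * B.q a * B.q b.2]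

/-- `x` is the first point of an edge `x, xa` which is removed by a band in `l`. -/
def Rem (l : List (Q × B.L)) (x : Q) : Prop :=
  ∃ b ∈ l, x = b.1 ∨ x = b.1 * B.q b.2

/-- `x, y` is a rung of a band in `l`. -/
def Rung (a : B.L) (l : List (Q × B.L)) (x y : Q) : Prop :=
  ∃ b ∈ l, (x = b.1 ∧ y = b.1 * B.q b.2) ∨ (y = b.1 ∧ x = b.1 * B.q b.2) ∨
    (x = b.1 * B.q a ∧ y = b.1 * B.q a * B.q b.2) ∨ (y = b.1 * B.q a ∧ x = b.1 * B.q a * B.q b.2)

/-- The edges of the lines with bands. -/
def Edg (a : B.L) (l : List (Q × B.L)) (x y : Q) : Prop :=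
  (y = x * B.q a ∧ ¬ Rem l x) ∨ (x = y * B.q a ∧ ¬ Rem l y) ∨ Rung a l x y

/-- A window (at the base point `1`): prescribed bands, optional bands, strands, footprint. -/
structure Win (a : B.L) where
  pre : List (Q × B.L)
  opt : List (Q × B.L)
  str : List (Strand B)
  F : Finset Q

/-- Correct windows. -/
structure Win.OK {a : B.L} (W : Win a) : Prop where
  bands : ((W.pre ++ W.opt).flatMap (bv a)).Nodup
  foot : ∀ b ∈ W.pre ++ W.opt, ∀ x ∈ bv a b, x ∈ W.F
  sfoot : ∀ s ∈ W.str, ∀ x ∈ s.vb, x ∈ W.F
  sok : SOK W.str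
  /-- base paths consist of edges of the lines with the prescribed bands -/
  base : ∀ s ∈ W.str, List.IsChain (Edg a W.pre) s.vb
  /-- optional bands do not meet the strands -/
  away : ∀ s ∈ W.str, ∀ x ∈ s.vb, ∀ b ∈ W.opt, x ∉ bv a b
  /-- the two sides of a prescribed band are connected inside the footprint -/
  conn : ∀ r : Q → Q → Prop, Equivalence r →
    (∀ x ∈ W.F, x * B.q a ∈ W.F → ¬ Rem W.pre x → r x (x * B.q a)) →
    (∀ b ∈ W.pre, r b.1 (b.1 * B.q b.2) ∧ r (b.1 * B.q a) (b.1 * B.q a * B.q b.2)) →
    (∀ b ∈ W.opt, r b.1 (b.1 * B.q b.2)) →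
    ∀ b ∈ W.pre, r b.1 (b.1 * B.q a) ∧ r (b.1 * B.q b.2) (b.1 * B.q a * B.q b.2)

/-- `x = a ^ c` with `|c| ≤ N`. -/
def Sm (a x : Q) (N : ℕ) : Prop := ∃ c : ℤ, |c| ≤ N ∧ x = a ^ c

end

end Pool.Agent.Lib.MP_688fd0_co.OSF
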