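import Pool.Agent.Lib.MP_688fd0_co.OSF.Defs

/-!
Groups of odd order with cyclic commutator subgroup: the modules (see `Paper.md`).
-/

set_option autoImplicit false

namespace Pool.Agent.Lib.MP_688fd0_co.OSF

open Finset

universe u v

/-! ### General tools -/

/-- FLIP: exchanging strands in a tour. -/
def RewireS : Prop :=
  ∀ (Q : Type u) [Group Q] [Fintype Q] (B : Lb.{u, v} Q) (T : Tour B) (l : List (Strand B × Bool)),
    SOK (l.map Prod.fst) → (∀ p ∈ l, T.Pass p.2 p.1.x p.1.l) →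
    ∃ T' : Tour B, (∀ y, (∀ p ∈ l, y ∉ p.1.vb) → T'.lab y = T.lab y) ∧
      ∀ (R : Type) [CommRing R] (V : Vd B R), V.tvol T' = V.tvol T + V.dlt l

/-- ORIENT: a connected 2-regular graph is a tour. -/
def OrientS : Prop :=
  ∀ (Q : Type u) [Group Q] [Fintype Q] (B : Lb.{u, v} Q) (Φ : SimpleGraph Q),
    (∀ x, dg Φ x = 2) → (∀ x y, Relation.EqvGen (fun a b => Φ.Adj a b) x y) →
    (∀ x y, Φ.Adj x y → ∃ g : B.L, y = x * B.q g) →
    ∀ S : List (Q × List B.L), (∀ s ∈ S, s.2 ≠ []) → (S.flatMap fun s => B.verts s.1 s.2).Nodup →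
      (∀ s ∈ S, List.IsChain Φ.Adj (B.verts s.1 s.2)) →
      ∃ T : Tour B, ∀ s ∈ S, ∃ b, T.Pass b s.1 s.2

/-- BANDS: the graph of the lines of `a`, with all bands of `pre` and a suitable part of the bands of `opt`. -/
def BandsS : Prop :=
  ∀ (Q : Type u) [Group Q] [Fintype Q] (B : Lb.{u, v} Q) (a : B.L) (pre opt : List (Q × B.L)),
    Cen a → B.q a * B.q a ≠ 1 → ((pre ++ opt).flatMap (bv a)).Nodup →
    (∀ r : Q → Q → Prop, Equivalence r → (∀ x, ¬ Rem pre x → r x (x * B.q a)) →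
      (∀ b ∈ pre, r b.1 (b.1 * B.q b.2) ∧ r (b.1 * B.q a) (b.1 * B.q a * B.q b.2)) →
      (∀ b ∈ opt, r b.1 (b.1 * B.q b.2)) → ∀ x y, r x y) →
    ∃ Φ : SimpleGraph Q, (∀ x, dg Φ x = 2) ∧ (∀ x y, Relation.EqvGen (fun a b => Φ.Adj a b) x y) ∧
      (∀ x y, Φ.Adj x y → ∃ g : B.L, y = x * B.q g) ∧
      ∀ x y, Edg a pre x y → (∀ b ∈ opt, x ∉ bv a b) → Φ.Adj x y

/-- LINES: optional bands that connect the lines of `a` and avoid a given small set. -/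
def LinesS : Prop :=
  ∀ (Q : Type u) [Group Q] [Fintype Q] (B : Lb.{u, v} Q) (a : B.L) (Z : Finset Q), Finite B.L → Cen a →
    Subgroup.closure (Set.range B.q) = ⊤ →
    4 * Z.card + 64 * Nat.card B.L + 10 < orderOf (B.q a) →
    ∃ opt : List (Q × B.L), (opt.flatMap (bv a)).Nodup ∧ (∀ b ∈ opt, ∀ x ∈ bv a b, x ∉ Z) ∧
      ∀ r : Q → Q → Prop, Equivalence r → (∀ x, r x (x * B.q a)) →
        (∀ b ∈ opt, r b.1 (b.1 * B.q b.2)) → ∀ x y, r x y

/-- PLACE: powers of `u` such that the translated footprints are disjoint. -/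
def PlaceS : Prop :=
  ∀ (Q : Type u) [Group Q] [Fintype Q] (u : Q) (ι : Type) [Fintype ι] (F : ι → Finset Q) (K : ℕ),
    (∀ i, (F i).card ≤ K) → Fintype.card ι * K ^ 2 < orderOf u →
    ∃ x : ι → Q, (∀ i, x i ∈ Subgroup.zpowers u) ∧
      ∀ i j, i ≠ j → ∀ y ∈ F i, ∀ z ∈ F j, x i * y ≠ x j * z

/-- NUMSEL: one residue class modulo each of few primes can be avoided. -/
def NumselS : Prop :=
  ∀ (S : Finset ℕ), (∀ p ∈ S, p.Prime ∧ p ≠ 2) → ∀ (C : ∀ p : ℕ, ZMod p) (δ : ℕ → ∀ p : ℕ, ZMod p),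
    (∀ p ∈ S, δ p p ≠ 0) →
    ∃ j : ℕ → ℕ, (∀ p ∈ S, j p < 2 ^ S.card * (S.card + 2)) ∧
      ∀ p ∈ S, C p + ∑ q ∈ S, (j q : ZMod p) * δ q p ≠ 0

/-- SMALLGEN: few generators suffice. -/
def SmallgenS : Prop :=
  ∀ (G : Type u) [Group G] [Finite G] (A : Set G), Squarefree (Nat.card G) → Subgroup.closure A = ⊤ →
    ∃ l : List G, (∀ g ∈ l, g ∈ A) ∧ l.length ≤ (Nat.card G).primeFactors.card ∧
      Subgroup.closure {x | x ∈ l} = ⊤

/-- LINEGEN: the choice of the direction of the lines. -/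
def LinegenS : Prop :=
  ∀ (Q : Type u) [CommGroup Q] [Finite Q] (L : Type v) [Finite L] (q : L → Q) (P : ℕ), P.Prime →
    P ∣ Nat.card Q → Subgroup.closure (Set.range q) = ⊤ → 2 ^ Nat.card L + 1 < P →
    ∃ a : L, P ∣ orderOf (q a) ∧ ∀ s : L, q s ^ 2 ≠ q a ∧ q s ^ 2 ≠ (q a)⁻¹

/-! ### Windows -/

/-- The window that we want for the prime `p`, on the lines of `a`: whatever the directions of the strands are, the
change of volume is not zero. -/
def GoodW {Q : Type u} [Group Q] {B : Lb.{u, v} Q} {p : ℕ} (V : Vd B (ZMod p)) (a : B.L) : Prop :=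
  ∃ W : Win a, W.OK ∧ W.F.card ≤ 200 ∧ W.str.length ≤ 2 ∧
    ∀ l : List (Strand B × Bool), l.map Prod.fst = W.str → V.dlt l ≠ 0

/-- Common hypotheses. -/
structure Hy {Q : Type u} [Group Q] (B : Lb.{u, v} Q) (p : ℕ) (a : B.L) : Prop where
  fin : Finite Q
  odd : Odd (Nat.card Q)
  cen : Cen a
  prime : p.Prime
  ne_two : p ≠ 2
  big : 1000 ≤ orderOf (B.q a)

/-- W1: `s = a ^ c`. Strand `1, a, .., a ^ (c + 1)`, alternative `s, a⁻¹, .., a⁻¹, s` (for `c = 1`: `a`, alternative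
`s`). -/
def W1S : Prop :=
  ∀ (Q : Type u) [Group Q] (B : Lb.{u, v} Q) (p : ℕ) (V : Vd B (ZMod p)) (a s : B.L) (c : ℕ),
    Hy B p a → 1 ≤ c → c ≤ 60 → B.q s = B.q a ^ c → V.kap a s ≠ 0 → GoodW V a

/-- W2: `s ^ 2 = a ^ d`, two crossing bands; no prescribed bands. -/
def W2S : Prop :=
  ∀ (Q : Type u) [Group Q] (B : Lb.{u, v} Q) (p : ℕ) (V : Vd B (ZMod p)) (a s : B.L) (d : ℕ),
    Hy B p a → ¬ Sm (B.q a) (B.q s) 60 → 3 ≤ d → d ≤ 20 → B.q s ^ 2 = B.q a ^ d →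
    V.kap a s ≠ 0 → GoodW V a

/-- W3: rows `1, s, s ^ 2`, bands `(1, s)` and `(a ^ 3 s, s)`; the 3 x 3 block by rows or by columns. -/
def W3S : Prop :=
  ∀ (Q : Type u) [Group Q] (B : Lb.{u, v} Q) (p : ℕ) (V : Vd B (ZMod p)) (a s : B.L),
    Hy B p a → ¬ Sm (B.q a) (B.q s) 20 → ¬ Sm (B.q a) (B.q s ^ 2) 20 →
    V.chi (B.q s) ≠ V.chi (B.q a) → V.kap a s ≠ 0 → GoodW V a

/-- WIN: there is always a window (case analysis, from W1 - W3). -/
def WinS : Prop :=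
  ∀ (Q : Type u) [Group Q] (B : Lb.{u, v} Q) (p : ℕ) (V : Vd B (ZMod p)) (a s : B.L),
    Hy B p a → B.q s ^ 2 ≠ B.q a → B.q s ^ 2 ≠ (B.q a)⁻¹ → V.kap a s ≠ 0 → GoodW V a

/-! ### Assembly -/

/-- The order that we need. -/
def big (r ρ : ℕ) : ℕ := 10 ^ 6 * (ρ + 1) * ((r + 1) * (r + 2) * 2 ^ r) + 2 ^ (ρ + 1)

/-- Reduction modulo a prime divisor. -/
def red {m p : ℕ} (h : p ∣ m) : ZMod m →+* ZMod p := ZMod.castHom h (ZMod p)

/-- FLIPSEL: many equal windows give a tour whose volume is a unit. `w p` is the list of strands (with their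
directions) of the window for `p`, `x p i` are the base points. -/
def FlipselS : Prop :=
  ∀ (Q : Type u) [Group Q] [Fintype Q] (B : Lb.{u, v} Q) (m : ℕ) (V : Vd B (ZMod m)), Odd m →
    ∀ (T : Tour B) (w : ℕ → List (Strand B × Bool)) (x : ℕ → ℕ → Q) (J : ℕ),
    J = 2 ^ m.primeFactors.card * (m.primeFactors.card + 2) →
    (∀ p ∈ m.primeFactors, SOK ((w p).map Prod.fst)) →
    (∀ p ∈ m.primeFactors, ∀ i < J, V.chi (x p i) = 1) →
    (∀ p ∈ m.primeFactors, ∀ i < J, ∀ s ∈ w p, T.Pass s.2 (x p i * s.1.x) s.1.l) →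
    (∀ p ∈ m.primeFactors, ∀ i < J, ∀ p' ∈ m.primeFactors, ∀ i' < J, (p, i) ≠ (p', i') →
      ∀ s ∈ w p, ∀ s' ∈ w p', ∀ y ∈ s.1.vb, ∀ y' ∈ s'.1.vb, x p i * y ≠ x p' i' * y') →
    (∀ p, ∀ hp : p ∈ m.primeFactors,
      (V.map (red (Nat.dvd_of_mem_primeFactors hp))).dlt (w p) ≠ 0) →
    ∃ T' : Tour B, IsUnit (V.tvol T')

/-- CORE: the main theorem for the quotient. -/
def CoreS : Prop :=
  ∀ (Q : Type u) [Group Q] [Fintype Q] (B : Lb.{u, v} Q) (m : ℕ) (V : Vd B (ZMod m)) (a : B.L) (u : Q),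
    Finite B.L → Odd (Fintype.card Q) → Odd m → Cen a →
    (∀ p, ∀ hp : p ∈ m.primeFactors, ∃ s, (V.map (red (Nat.dvd_of_mem_primeFactors hp))).kap a s ≠ 0) →
    (∀ s : B.L, B.q s ^ 2 ≠ B.q a ∧ B.q s ^ 2 ≠ (B.q a)⁻¹) →
    Subgroup.closure (Set.range B.q) = ⊤ → V.chi u = 1 →
    big m.primeFactors.card (Nat.card B.L) ≤ orderOf u →
    big m.primeFactors.card (Nat.card B.L) ≤ orderOf (B.q a) → ∃ T : Tour B, IsUnit (V.tvol T)

/-! ### Groups -/

/-- Listing sequences. -/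
def Lst {G : Type u} [Group G] (A : Set G) : Prop :=
  ∃ a : Fin (Nat.card G) → G, (∀ i, a i ∈ A) ∧
    Function.Injective (fun k : Fin (Nat.card G) => ((List.ofFn a).take (k + 1)).prod)

/-- FACTOR: a tour whose volume is a unit gives a listing sequence. -/
def FactorS : Prop :=
  ∀ (G : Type u) [Group G] [Finite G] (Q : Type v) [Group Q] [Fintype Q] (m : ℕ) (π : G →* Q)
    (s : Q →* G) (z : G) (chi : Q →* ZMod m) (ν : G → ZMod m),
    0 < m → (∀ q, π (s q) = q) → π z = 1 → orderOf z = m → (∀ g, π g = 1 → g ∈ Subgroup.zpowers z) →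
    (∀ q, s q * z * (s q)⁻¹ = z ^ (chi q).val) → (∀ g, g = z ^ (ν g).val * s (π g)) →
    ∀ (A : Set G) (lab : Q → G), (∀ x, lab x ∈ A) →
      (∀ x y, ∃ k : ℕ, (fun t => t * π (lab t))^[k] x = y) →
      IsUnit (∑ x, chi x * ν (lab x)) → Lst A

/-- HDATA: a cyclic normal subgroup whose order is prime to its index. -/
def HdataS : Prop :=
  ∀ (G : Type u) [Group G] [Finite G] (C : Subgroup G) (_ : C.Normal), IsCyclic C →
    (Nat.card C).Coprime C.index →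
    ∃ (s : G ⧸ C →* G) (z : G) (chi : G ⧸ C →* ZMod (Nat.card C)) (ν : G → ZMod (Nat.card C)),
      (∀ q, QuotientGroup.mk' C (s q) = q) ∧ Subgroup.zpowers z = C ∧ orderOf z = Nat.card C ∧
      (∀ q, s q * z * (s q)⁻¹ = z ^ (chi q).val) ∧
      (∀ g : G, g = z ^ (ν g).val * s (QuotientGroup.mk' C g)) ∧
      (∀ g : G, ν g⁻¹ = -(chi ((QuotientGroup.mk' C g)⁻¹) * ν g)) ∧
      (∀ g h : G, QuotientGroup.mk' C (g * h) = QuotientGroup.mk' C (h * g) →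
        g * h * g⁻¹ * h⁻¹ = z ^ ((chi (QuotientGroup.mk' C g) - 1) * ν h -
          (chi (QuotientGroup.mk' C h) - 1) * ν g).val) ∧
      ∀ u : G, (∀ c ∈ C, u * c = c * u) → chi (QuotientGroup.mk' C u) = 1

/-- STR: the structural theorem. -/
def StrS : Prop :=
  ∀ (G : Type u) [Group G] [Finite G] (A : Set G) (C : Subgroup G) (_ : C.Normal) (a u : G),
    Odd (Nat.card G) → (∀ x ∈ A, x⁻¹ ∈ A) → Subgroup.closure A = ⊤ → a ∈ A →
    IsCyclic C → (Nat.card C).Coprime C.index →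
    C = Subgroup.closure {x | ∃ s ∈ A, x = a * s * a⁻¹ * s⁻¹} →
    (∀ g ∈ A, g ∈ C → g = 1) → (∀ s ∈ A, s ^ 2 * a ∉ C ∧ s ^ 2 * a⁻¹ ∉ C) →
    (∀ c ∈ C, u * c = c * u) →
    big (Nat.card C).primeFactors.card (Nat.card A) ≤ orderOf (QuotientGroup.mk' C u) →
    big (Nat.card C).primeFactors.card (Nat.card A) ≤ orderOf (QuotientGroup.mk' C a) → Lst A

/-- LOOP: a generator which generates a normal subgroup. -/
def LoopS : Prop :=
  ∀ (G : Type u) [Group G] [Finite G] (A : Set G) (a : G), a ∈ A →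
    ∀ (_ : (Subgroup.zpowers a).Normal),
      Lst (QuotientGroup.mk' (Subgroup.zpowers a) '' A) → Lst A

/-- ORDERS: integers with a good prime divisor. -/
def Fine (c n : ℕ) : Prop :=
  ∃ P ∈ n.primeFactors, (∀ q ∈ n.primeFactors, ¬ q ∣ P - 1 ∧ ¬ P ∣ q - 1) ∧
    (2 ^ n.primeFactors.card) ^ c ≤ P

open Classical in
/-- ORDERS: almost all odd squarefree integers are fine. -/
def OrdersS : Prop :=
  ∀ (c : ℕ) (ε : ℝ), 0 < ε → ∃ x₀ : ℕ, ∀ x ≥ x₀,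
    (((Icc 1 x).filter (fun n => Odd n ∧ Squarefree n ∧ ¬ Fine c n)).card : ℝ) ≤ ε * x

/-- MAIN: groups of fine odd squarefree order. -/
def MainS : Prop :=
  ∀ (G : Type u) [Group G] [Finite G] (A : Set G), A.Nonempty → (∀ x ∈ A, x⁻¹ ∈ A) →
    Subgroup.closure A = ⊤ → Odd (Nat.card G) → Squarefree (Nat.card G) → Fine 60 (Nat.card G) → Lst A

end Pool.Agent.Lib.MP_688fd0_co.OSF
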