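import Pool.Agent.Lib.MP_688fd0_co.OSF.Iface

/-!
Extension: groups of odd order whose commutator subgroup is cyclic of squarefree order prime to its index, and orders
that are not squarefree.
-/

set_option autoImplicit false

namespace Pool.Agent.Lib.MP_688fd0_co.OSF

open Finset

universe u v

/-- Odd numbers all of whose groups have a cyclic commutator subgroup of squarefree order prime to the index: cubefree,
and if `q ^ 2` divides `n` then no prime divisor of `n` divides `q ^ 2 - 1`. -/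
def Dn (n : ℕ) : Prop :=
  Odd n ∧ ∀ q, q.Prime → q ^ 2 ∣ n → ¬ q ^ 3 ∣ n ∧ ∀ r, r.Prime → r ∣ n → ¬ r ∣ q ^ 2 - 1

/-- GRPD: the structure of the groups of order `n`, `Dn n`. -/
def GrpdS : Prop :=
  ∀ (G : Type u) [Group G] [Finite G], Dn (Nat.card G) →
    IsCyclic (commutator G) ∧ Squarefree (Nat.card (commutator G)) ∧
    (Nat.card (commutator G)).Coprime (commutator G).index ∧
    ∀ P ∈ (Nat.card G).primeFactors, (∀ q ∈ (Nat.card G).primeFactors, ¬ q ∣ P - 1) →
      ¬ P ∣ Nat.card (commutator G)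

/-- SMALLGEN2: few generators suffice. -/
def Smallgen2S : Prop :=
  ∀ (G : Type u) [Group G] [Finite G] (A : Set G), Subgroup.closure A = ⊤ →
    ∃ l : List G, (∀ g ∈ l, g ∈ A) ∧ l.length ≤ (Nat.card G).primeFactorsList.length ∧
      Subgroup.closure {x | x ∈ l} = ⊤

/-- MAIN2: groups with cyclic commutator subgroup. -/
def Main2S : Prop :=
  ∀ (G : Type u) [Group G] [Finite G] (A : Set G), A.Nonempty → (∀ x ∈ A, x⁻¹ ∈ A) →
    Subgroup.closure A = ⊤ → Odd (Nat.card G) → IsCyclic (commutator G) →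
    Squarefree (Nat.card (commutator G)) → (Nat.card (commutator G)).Coprime (commutator G).index →
    ∀ P : ℕ, P.Prime → P ∣ (commutator G).index →
    (∀ p ∈ (Nat.card (commutator G)).primeFactors, ¬ P ∣ p - 1) →
    2 ^ (60 * (Nat.card G).primeFactorsList.length) ≤ P → Lst A

/-- Integers with a good prime divisor (prime factors counted with multiplicity). -/
def FineO (c n : ℕ) : Prop :=
  ∃ P ∈ n.primeFactors, (∀ q ∈ n.primeFactors, ¬ q ∣ P - 1 ∧ ¬ P ∣ q - 1) ∧
    2 ^ (c * n.primeFactorsList.length) ≤ P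

open Classical in
/-- ORD2: almost all odd integers are fine. -/
def Orders2S : Prop :=
  ∀ (c : ℕ) (ε : ℝ), 0 < ε → ∃ x₀ : ℕ, ∀ x ≥ x₀,
    (((Icc 1 x).filter (fun n => Odd n ∧ ¬ FineO c n)).card : ℝ) ≤ ε * x

/-- NOTDVD: a good prime does not divide the order of the commutator subgroup. -/
def NotdvdS : Prop :=
  ∀ (G : Type u) [Group G] [Finite G] (P : ℕ), P.Prime → P ∣ Nat.card G → ¬ P ^ 2 ∣ Nat.card G →
    (∀ q ∈ (Nat.card G).primeFactors, ¬ q ∣ P - 1) → ¬ P ∣ Nat.card (commutator G)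

open Classical in
/-- DENS2: the number of odd integers up to `x` that are not divisible by 27 or by the square of a prime `q ≥ 5` is
`13 / (3 π ^ 2) x + o(x)` (lower bound). -/
def Dens2S : Prop :=
  ∀ (ε : ℝ), 0 < ε → ∃ x₀ : ℕ, ∀ x ≥ x₀,
    (13 / (3 * Real.pi ^ 2) - ε) * x ≤
      (((Icc 1 x).filter (fun n => Odd n ∧ ¬ 27 ∣ n ∧ ∀ q, q.Prime → 5 ≤ q → ¬ q ^ 2 ∣ n)).card : ℝ)

end Pool.Agent.Lib.MP_688fd0_co.OSF
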